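import Pool.Agent.Y19.TP.Stm2

/-!
# Project TP, job TAILW: bounded tails of the critical orbits, any residue characteristic
(adapted from helper872's proof of TAIL)
-/

set_option autoImplicit false

namespace Pool.Agent.Y986.TP

open Polynomial Function Pool.Agent.Y19.TP

section lem

variable {U : Type} [NormedField U] (A : Subring U) (f : U[X])

theorem ev_mem (hf : ∀ i, f.coeff i ∈ A) {z : U} (hz : z ∈ A) : f.eval z ∈ A := by
  rw [eval_eq_sum_range]
  exact A.sum_mem fun i _ => A.mul_mem (hf i) (A.pow_mem hz i)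

theorem it_mem (hf : ∀ i, f.coeff i ∈ A) {z : U} (hz : z ∈ A) (n : ℕ) :
    (fun z : U => f.eval z)^[n] z ∈ A := by
  induction n with
  | zero => exact hz
  | succ n ih =>
    rw [iterate_succ_apply']
    exact ev_mem A f hf ih

/-- The difference quotient. -/
noncomputable def Q (y z : U) : U := ∑ i ∈ Finset.range (f.natDegree + 1),
    f.coeff i * ∑ j ∈ Finset.range i, y ^ j * z ^ (i - 1 - j)

theorem Q_mem (hf : ∀ i, f.coeff i ∈ A) {y z : U} (hy : y ∈ A) (hz : z ∈ A) : Q f y z ∈ A :=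
  A.sum_mem fun i _ => A.mul_mem (hf i) (A.sum_mem fun _ _ =>
      A.mul_mem (A.pow_mem hy _) (A.pow_mem hz _))

theorem ev_sub (y z : U) : f.eval y - f.eval z = Q f y z * (y - z) := by
  unfold Q
  rw [eval_eq_sum_range, eval_eq_sum_range, ← Finset.sum_sub_distrib, Finset.sum_mul]
  refine Finset.sum_congr rfl fun i _ => ?_
  rw [mul_assoc, geom_sum₂_mul]
  ring

variable (hA : ∀ a ∈ A, ‖a‖ ≤ 1)

include hA in
theorem ev_le (hf : ∀ i, f.coeff i ∈ A) {y z : U} (hy : y ∈ A) (hz : z ∈ A) :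
    ‖f.eval y - f.eval z‖ ≤ ‖y - z‖ := by
  rw [ev_sub f y z, norm_mul]
  calc ‖Q f y z‖ * ‖y - z‖ ≤ 1 * ‖y - z‖ :=
        mul_le_mul_of_nonneg_right (hA _ (Q_mem A f hf hy hz)) (norm_nonneg _)
    _ = ‖y - z‖ := one_mul _

include hA in
theorem it_le (hf : ∀ i, f.coeff i ∈ A) {y z : U} (hy : y ∈ A) (hz : z ∈ A) (n : ℕ) :
    ‖(fun z : U => f.eval z)^[n] y - (fun z : U => f.eval z)^[n] z‖ ≤ ‖y - z‖ := by
  induction n with
  | zero => exact le_rfl
  | succ n ih =>
    rw [iterate_succ_apply', iterate_succ_apply']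
    exact (ev_le A f hA hf (it_mem A f hf hy n) (it_mem A f hf hz n)).trans ih

/-- Congruence modulo the maximal ideal, within `A`. -/
def R (A : Subring U) (a b : U) : Prop := a ∈ A ∧ b ∈ A ∧ ‖a - b‖ < 1

variable {A}

theorem R.refl {a : U} (ha : a ∈ A) : R A a a := ⟨ha, ha, by simp⟩

theorem R.symm {a b : U} (h : R A a b) : R A b a := ⟨h.2.1, h.1, by rw [norm_sub_rev]; exact h.2.2⟩

variable [IsUltrametricDist U]

theorem R.trans {a b c : U} (h1 : R A a b) (h2 : R A b c) : R A a c := by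
  refine ⟨h1.1, h2.2.1, ?_⟩
  have h3 : a - c = (a - b) + (b - c) := by ring
  rw [h3]
  exact (IsUltrametricDist.norm_add_le_max _ _).trans_lt (max_lt h1.2.2 h2.2.2)

theorem R.add {a b c d : U} (h1 : R A a b) (h2 : R A c d) : R A (a + c) (b + d) := by
  refine ⟨A.add_mem h1.1 h2.1, A.add_mem h1.2.1 h2.2.1, ?_⟩
  have h3 : a + c - (b + d) = (a - b) + (c - d) := by ring
  rw [h3]
  exact (IsUltrametricDist.norm_add_le_max _ _).trans_lt (max_lt h1.2.2 h2.2.2)

include hA in
theorem R.mul {a b c d : U} (h1 : R A a b) (h2 : R A c d) : R A (a * c) (b * d) := by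
  refine ⟨A.mul_mem h1.1 h2.1, A.mul_mem h1.2.1 h2.2.1, ?_⟩
  have h3 : a * c - b * d = (a - b) * c + b * (c - d) := by ring
  rw [h3]
  refine (IsUltrametricDist.norm_add_le_max _ _).trans_lt (max_lt ?_ ?_)
  · rw [norm_mul]
    calc ‖a - b‖ * ‖c‖ ≤ ‖a - b‖ * 1 := mul_le_mul_of_nonneg_left (hA _ h2.1) (norm_nonneg _)
      _ < 1 := by rw [mul_one]; exact h1.2.2
  · rw [norm_mul]
    calc ‖b‖ * ‖c - d‖ ≤ 1 * ‖c - d‖ := mul_le_mul_of_nonneg_right (hA _ h1.2.1) (norm_nonneg _)
      _ < 1 := by rw [one_mul]; exact h2.2.2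

include hA in
theorem R.pow {a b : U} (h1 : R A a b) (n : ℕ) : R A (a ^ n) (b ^ n) := by
  induction n with
  | zero => simpa using R.refl A.one_mem
  | succ n ih =>
    rw [pow_succ, pow_succ]
    exact R.mul hA ih h1

theorem R.sum {ι : Type} (s : Finset ι) (g h : ι → U) (H : ∀ i ∈ s, R A (g i) (h i)) :
    R A (∑ i ∈ s, g i) (∑ i ∈ s, h i) := by
  classical
  induction s using Finset.induction_on with
  | empty => simpa using R.refl A.zero_mem
  | insert a s ha ih =>
    rw [Finset.sum_insert ha, Finset.sum_insert ha]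
    exact (H a (Finset.mem_insert_self _ _)).add
      (ih fun i hi => H i (Finset.mem_insert_of_mem hi))

include hA in
theorem Q_R (hf : ∀ i, f.coeff i ∈ A) {y z y' z' : U} (h1 : R A y y') (h2 : R A z z') :
    R A (Q f y z) (Q f y' z') :=
  R.sum _ _ _ fun i _ => R.mul hA (R.refl (hf i)) (R.sum _ _ _ fun _ _ =>
    R.mul hA (R.pow hA h1 _) (R.pow hA h2 _))

end lem

theorem t_TAILW : DISCW → TAILW := by
  intro hD U _ _ _ _ d hd κ hκ f hmon hdeg A hA hf hcrit hpcf ρ hρ0 hρ1 hρ M hpig E hE c hc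
  classical
  obtain ⟨F, hF⟩ : ∃ F : U → U, F = fun z : U => f.eval z := ⟨_, rfl⟩
  have hcA := hcrit c hc
  have hitA : ∀ (n : ℕ) (z : U), z ∈ A → F^[n] z ∈ A := by
    intro n z hz
    rw [hF]
    exact it_mem A f hf hz n
  have hitle : ∀ (n : ℕ) (y z : U), y ∈ A → z ∈ A → ‖F^[n] y - F^[n] z‖ ≤ ‖y - z‖ := by
    intro n y z hy hz
    rw [hF]
    exact it_le A f hA hf hy hz n
  have hitR : ∀ (n : ℕ) (y z : U), R A y z → R A (F^[n] y) (F^[n] z) := fun n y z h =>
    ⟨hitA n y h.1, hitA n z h.2.1, (hitle n y z h.1 h.2.1).trans_lt h.2.2⟩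
  have hfin := hpcf c hc
  rw [← hF] at hfin ⊢
  by_contra hM
  -- the orbit becomes periodic
  have hex : ∃ t : ℕ, F^[t] c ∈ periodicPts F := by
    have h1 : ¬ Injective (fun n : ℕ => F^[n] c) := by
      intro hinj
      exact Set.infinite_range_of_injective hinj hfin
    obtain ⟨a, b, hab, hne⟩ : ∃ a b : ℕ, F^[a] c = F^[b] c ∧ a ≠ b := by
      unfold Injective at h1
      push Not at h1
      exact h1
    have key : ∀ a b : ℕ, a < b → F^[a] c = F^[b] c → F^[a] c ∈ periodicPts F := by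
      intro a b hlt he
      refine ⟨b - a, by omega, ?_⟩
      unfold IsPeriodicPt IsFixedPt
      rw [← iterate_add_apply]
      have : b - a + a = b := by omega
      rw [this, he]
    rcases lt_or_gt_of_ne hne with h | h
    · exact ⟨a, key a b h hab⟩
    · exact ⟨b, key b a h hab.symm⟩
  obtain ⟨t0, ht0⟩ : ∃ t0 : ℕ, t0 = Nat.find hex := ⟨_, rfl⟩
  have ht0p : F^[t0] c ∈ periodicPts F := by rw [ht0]; exact Nat.find_spec hex
  have htM : M + M * (E + 1) < t0 := by
    by_contra hlt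
    push Not at hlt
    apply hM
    obtain ⟨n, hn, hp⟩ := ht0p
    refine ⟨n, hn, ?_⟩
    have h1 : F^[M + M * (E + 1)] c = F^[M + M * (E + 1) - t0] (F^[t0] c) := by
      rw [← iterate_add_apply]
      congr 1
      omega
    rw [h1]
    exact hp.apply_iterate _
  obtain ⟨s, hs⟩ : ∃ s : ℕ, s = t0 - 1 := ⟨_, rfl⟩
  obtain ⟨z, hz⟩ : ∃ z : U, z = F^[s] c := ⟨_, rfl⟩
  have hzA : z ∈ A := by rw [hz]; exact hitA _ _ hcA
  have hznp : z ∉ periodicPts F := by
    rw [hz]
    exact Nat.find_min hex (by omega)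
  have hFz : F z = F^[t0] c := by
    rw [hz, ← iterate_succ_apply' F]
    congr 1
    omega
  rw [← hFz] at ht0p
  obtain ⟨k, hk, hkp⟩ := ht0p
  obtain ⟨w, hw⟩ : ∃ w : U, w = F^[k - 1] (F z) := ⟨_, rfl⟩
  have hFw : F w = F z := by
    rw [hw, ← iterate_succ_apply' F]
    have : (k - 1).succ = k := by omega
    rw [this]
    exact hkp
  have hwp : IsPeriodicPt F k w := by
    rw [hw]
    exact hkp.apply_iterate (k - 1)
  have hwA : w ∈ A := by
    rw [hw]
    apply hitA
    have := hitA 1 z hzA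
    exact this
  have hwper : w ∈ periodicPts F := ⟨k, hk, hwp⟩
  have hzw : z ≠ w := fun h => hznp (by rw [h]; exact hwper)
  have hFn : ∀ n : ℕ, 1 ≤ n → F^[n] z = F^[n] w := by
    intro n hn
    obtain ⟨m, rfl⟩ : ∃ m, n = m + 1 := ⟨n - 1, by omega⟩
    rw [iterate_succ_apply, iterate_succ_apply, hFw]
  -- pigeonhole
  obtain ⟨i, j, hij, hg⟩ := hpig (fun i : Fin (M + 1) => F^[(i : ℕ)] c) (fun i => hitA _ _ hcA)
  have hg1 := hg.trans_lt hρ1
  obtain ⟨i', l, hl, hlM, hi'M, hR⟩ : ∃ i' l : ℕ, 1 ≤ l ∧ l ≤ M ∧ i' ≤ M ∧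
      ‖F^[i' + l] c - F^[i'] c‖ < 1 := by
    have hi := i.isLt
    have hj := j.isLt
    have hne : (i : ℕ) ≠ (j : ℕ) := fun h => hij (Fin.ext h)
    rcases lt_or_gt_of_ne hne with h | h
    · refine ⟨i, j - i, by omega, by omega, by omega, ?_⟩
      have : (i : ℕ) + (j - i) = j := by omega
      rw [this, norm_sub_rev]
      exact hg1
    · refine ⟨j, i - j, by omega, by omega, by omega, ?_⟩
      have : (j : ℕ) + (i - j) = i := by omega
      rw [this]
      exact hg1
  have hR1 : ∀ n : ℕ, i' ≤ n → R A (F^[n + l] c) (F^[n] c) := by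
    intro n hn
    have h1 := hitR (n - i') _ _ ⟨hitA (i' + l) _ hcA, hitA i' _ hcA, hR⟩
    rw [← iterate_add_apply, ← iterate_add_apply] at h1
    have e1 : n - i' + (i' + l) = n + l := by omega
    have e2 : n - i' + i' = n := by omega
    rwa [e1, e2] at h1
  have hR2 : ∀ (n : ℕ), i' ≤ n → ∀ q : ℕ, R A (F^[n + l * q] c) (F^[n] c) := by
    intro n hn q
    induction q with
    | zero => simpa using R.refl (hitA n _ hcA)
    | succ q ih =>
      have h1 := hR1 (n + l * q) (by omega)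
      have e1 : n + l * (q + 1) = n + l * q + l := by ring
      rw [e1]
      exact h1.trans ih
  -- the shadowing periodic orbit
  obtain ⟨q, hq⟩ : ∃ q : ℕ, q = l * (k * (s + 1)) := ⟨_, rfl⟩
  have hqs : s + 1 ≤ q := by
    have h1 : s + 1 ≤ k * (s + 1) := Nat.le_mul_of_pos_left _ hk
    have h2 : k * (s + 1) ≤ l * (k * (s + 1)) := Nat.le_mul_of_pos_left _ hl
    omega
  obtain ⟨r, hr⟩ : ∃ r : ℕ, r + s = q := ⟨q - s, by omega⟩
  have hzy : ∀ n : ℕ, i' ≤ n → R A (F^[n] c) (F^[n + r] w) := by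
    intro n hn
    have h1 := hR2 n hn (k * (s + 1))
    rw [← hq] at h1
    have h2 : F^[n + q] c = F^[n + r] w := by
      have e1 : n + q = (n + r) + s := by omega
      rw [e1, iterate_add_apply, ← hz]
      exact hFn _ (by omega)
    rw [h2] at h1
    exact h1.symm
  have hys : F^[s + r] w = w := by
    have e1 : s + r = k * (l * (s + 1)) := by
      rw [add_comm, hr, hq]; ring
    rw [e1]
    exact (hwp.mul_const (l * (s + 1)))
  have hevzw : f.eval z = f.eval w := by
    have := hFw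
    rw [hF] at this
    exact this.symm
  have hQ0 : Q f z w = 0 := by
    have h1 := ev_sub f z w
    rw [hevzw, sub_self] at h1
    rcases mul_eq_zero.1 h1.symm with h2 | h2
    · exact h2
    · exact absurd (sub_eq_zero.1 h2) hzw
  have hzwR : R A z w := by
    have h1 := hzy s (by omega)
    rw [hys, ← hz] at h1
    exact h1
  obtain ⟨b, hb, hbi⟩ : ∃ b : ℕ, b + (E + 1) * l = s ∧ i' ≤ b := by
    have h1 : (E + 1) * l ≤ M * (E + 1) := by
      rw [Nat.mul_comm]; exact Nat.mul_le_mul_right _ hlM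
    exact ⟨s - (E + 1) * l, by omega, by omega⟩
  have hstep : ∀ n : ℕ, i' ≤ n → R A (F^[n] c) z →
      ‖F^[n + 1] c - F^[n + 1 + r] w‖ ≤ ρ * ‖F^[n] c - F^[n + r] w‖ := by
    intro n hn hnz
    have h1 := hzy n hn
    have h2 : R A (F^[n + r] w) w := (h1.symm.trans hnz).trans hzwR
    have h3 := Q_R f hA hf hnz h2
    rw [hQ0] at h3
    have h4 := h3.2.2
    rw [sub_zero] at h4
    have h5 := hρ _ h3.1 h4
    have e1 : F^[n + 1] c = f.eval (F^[n] c) := by
      rw [iterate_succ_apply', hF]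
    have e2 : F^[n + 1 + r] w = f.eval (F^[n + r] w) := by
      have : n + 1 + r = (n + r) + 1 := by omega
      rw [this, iterate_succ_apply', hF]
    rw [e1, e2, ev_sub, norm_mul]
    exact mul_le_mul_of_nonneg_right h5 (norm_nonneg _)
  have hmono : ∀ n m : ℕ, ‖F^[n + m] c - F^[n + m + r] w‖ ≤ ‖F^[n] c - F^[n + r] w‖ := by
    intro n m
    have h1 := hitle m (F^[n] c) (F^[n + r] w) (hitA _ _ hcA) (hitA _ _ hwA)
    rw [← iterate_add_apply, ← iterate_add_apply] at h1
    have e1 : m + n = n + m := by omega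
    have e2 : m + (n + r) = n + m + r := by omega
    rwa [e1, e2] at h1
  have hind : ∀ m : ℕ, m ≤ E + 1 → ‖F^[b + m * l] c - F^[b + m * l + r] w‖ ≤ ρ ^ m := by
    intro m
    induction m with
    | zero =>
      intro _
      rw [zero_mul, add_zero, pow_zero]
      exact (hzy b hbi).2.2.le
    | succ m ih =>
      intro hm
      have h1 := ih (by omega)
      have h2 : R A (F^[b + m * l] c) z := by
        have h3 := (hR2 (b + m * l) (by omega) (E + 1 - m)).symm
        have e1 : b + m * l + l * (E + 1 - m) = s := by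
          rw [← hb]
          obtain ⟨x, hx⟩ : ∃ x, E + 1 = m + x := ⟨E + 1 - m, by omega⟩
          rw [hx, Nat.add_sub_cancel_left]
          ring
        rw [e1, ← hz] at h3
        exact h3
      have h4 := hstep _ (by omega) h2
      have h5 := hmono (b + m * l + 1) (l - 1)
      have e2 : b + m * l + 1 + (l - 1) = b + (m + 1) * l := by
        have : (m + 1) * l = m * l + l := by ring
        omega
      rw [e2] at h5
      calc _ ≤ _ := h5
        _ ≤ _ := h4
        _ ≤ ρ * ρ ^ m := mul_le_mul_of_nonneg_left h1 hρ0.le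
        _ = ρ ^ (m + 1) := by ring
  have hfinal := hind (E + 1) le_rfl
  rw [hb, hys, ← hz] at hfinal
  have h6 : ρ ^ (E + 1) ≤ ρ ^ E := pow_le_pow_of_le_one hρ0.le hρ1.le (Nat.le_succ E)
  apply hzw
  exact hD U d hd κ hκ f hmon hdeg (fun i => hA _ (hf i)) hpcf w (hA w hwA)
    (by rw [← hF]; exact hwper) z ((hfinal.trans h6).trans hE) hevzw

end Pool.Agent.Y986.TP
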